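import Pool.Agent.H57.RC.Ext

set_option autoImplicit false

open MeasureTheory Filter Topology Metric Pool.Agent.H40.NP Pool.Agent.H57.RC

namespace Pool.Agent.Results.MP_fb6cbc_an.CapacityComparison

/-- the boundary inequality `limsup v ≤ liminf u` at one point, for extended-valued functions with
one-sided bounds, implies `limsup (v - u) ≤ 0` -/
private theorem bd_of_limsup {n : ℕ} {Ω : Set (E n)} {x : E n} {u v : E n → EReal} {M : ℝ}
    (huM : ∀ y ∈ Ω, ((-M : ℝ) : EReal) ≤ u y) (hvM : ∀ y ∈ Ω, v y ≤ (M : EReal))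
    (h : limsup v (𝓝[Ω] x) ≤ liminf u (𝓝[Ω] x)) {ε : ℝ} (hε : 0 < ε) :
    ∀ᶠ y in 𝓝[Ω] x, v y < u y + (ε : EReal) := by
  have hmem : ∀ᶠ y in 𝓝[Ω] x, y ∈ Ω := self_mem_nhdsWithin
  obtain ⟨a, ha⟩ : ∃ a, a = liminf u (𝓝[Ω] x) := ⟨_, rfl⟩
  rw [← ha] at h
  have h0 : ((-M : ℝ) : EReal) ≤ a := by
    rw [ha]
    exact le_liminf_of_le (by isBoundedDefault) (hmem.mono fun y hy => huM y hy)
  rcases eq_or_ne a ⊤ with h1 | h1
  · have h2 : ∀ᶠ y in 𝓝[Ω] x, (M : EReal) < u y :=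
      eventually_lt_of_lt_liminf (by rw [← ha, h1]; exact EReal.coe_lt_top M)
    filter_upwards [h2, hmem] with y hy hyΩ
    refine lt_of_lt_of_le (lt_of_le_of_lt (hvM y hyΩ) hy) ?_
    have h3 : u y + ((0 : ℝ) : EReal) ≤ u y + (ε : EReal) :=
      add_le_add le_rfl (EReal.coe_le_coe_iff.2 hε.le)
    rwa [EReal.coe_zero, add_zero] at h3
  · have h2 : a ≠ ⊥ := ne_bot_of_le_ne_bot (EReal.coe_ne_bot _) h0
    lift a to ℝ using ⟨h1, h2⟩
    have h3 : ∀ᶠ y in 𝓝[Ω] x, ((a - ε / 2 : ℝ) : EReal) < u y :=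
      eventually_lt_of_lt_liminf (by rw [← ha]; exact EReal.coe_lt_coe_iff.2 (by linarith))
    have h4 : ∀ᶠ y in 𝓝[Ω] x, v y < ((a + ε / 2 : ℝ) : EReal) :=
      eventually_lt_of_limsup_lt (lt_of_le_of_lt h (EReal.coe_lt_coe_iff.2 (by linarith)))
    filter_upwards [h3, h4] with y h5 h6
    refine lt_of_lt_of_le h6 ?_
    have e : ((a + ε / 2 : ℝ) : EReal) = ((a - ε / 2 : ℝ) : EReal) + (ε : EReal) := by
      rw [← EReal.coe_add]
      congr 1
      ring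
    rw [e]
    exact add_le_add h5.le le_rfl

/-- The comparison principle with an exceptional boundary set, quantitatively: the measure of the
set where it fails by more than `ε` is at most a constant times the relative capacity of the
exceptional set. In particular it holds when the exceptional set has relative capacity zero, for
superharmonic functions bounded below and subharmonic functions bounded above. -/
theorem result {n : ℕ} (hn : 1 ≤ n) {p : ℝ} (hp : 1 < p) {w : E n → ℝ} (hw : PAdmissible p w)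
    {A : E n → E n → E n} (hA : AOperator p w A) :
    -- (1) the quantitative comparison principle
    (∀ R M ε : ℝ, 0 < R → 0 < ε → ∃ C : ENNReal, C ≠ ⊤ ∧
      ∀ (Ω S : Set (E n)) (u v : E n → EReal), IsOpen Ω → Ω ⊆ ball 0 R →
        Superharmonic p w A Ω u → Subharmonic p w A Ω v →
        (∀ x ∈ Ω, ((-M : ℝ) : EReal) ≤ u x) → (∀ x ∈ Ω, v x ≤ (M : EReal)) →
        (∀ x ∈ frontier Ω \ S, ∀ δ : ℝ, 0 < δ → ∀ᶠ y in 𝓝[Ω] x, v y < u y + (δ : EReal)) →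
        wMeasure w {x | x ∈ Ω ∧ u x + (ε : EReal) < v x} ≤ C * relCap p (wMeasure w) Ω S) ∧
    -- (2) exceptional sets of relative capacity zero
    (∀ (Ω S : Set (E n)) (u v : E n → EReal), IsOpen Ω → Bornology.IsBounded Ω →
      relCap p (wMeasure w) Ω S = 0 → Superharmonic p w A Ω u → Subharmonic p w A Ω v →
      (∃ M : ℝ, ∀ x ∈ Ω, (M : EReal) ≤ u x) → (∃ M : ℝ, ∀ x ∈ Ω, v x ≤ (M : EReal)) →
      (∀ x ∈ frontier Ω \ S, ∀ δ : ℝ, 0 < δ → ∀ᶠ y in 𝓝[Ω] x, v y < u y + (δ : EReal)) →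
      ∀ x ∈ Ω, v x ≤ u x) ∧
    -- (3) exceptional sets of Sobolev capacity zero, with the boundary inequality of the problem
    (∀ (Ω S : Set (E n)) (u v : E n → EReal), IsOpen Ω → Bornology.IsBounded Ω →
      cap p (wMeasure w) S = 0 → Superharmonic p w A Ω u → Subharmonic p w A Ω v →
      (∃ M : ℝ, ∀ x ∈ Ω, (M : EReal) ≤ u x) → (∃ M : ℝ, ∀ x ∈ Ω, v x ≤ (M : EReal)) →
      (∀ x ∈ frontier Ω \ S, limsup v (𝓝[Ω] x) ≤ liminf u (𝓝[Ω] x)) →
      ∀ x ∈ Ω, v x ≤ u x) ∧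
    -- (4) the same for bounded real-valued functions
    (∀ {Ω : Set (E n)} (_ : IsOpen Ω) (_ : Bornology.IsBounded Ω) {S : Set (E n)}
      (_ : cap p (wMeasure w) S = 0) {u v : E n → ℝ}
      (_ : IsSuperharmonic p w A Ω u) (_ : IsSubharmonic p w A Ω v)
      (_ : ∃ K : ℝ, ∀ x ∈ Ω, |u x| ≤ K) (_ : ∃ K : ℝ, ∀ x ∈ Ω, |v x| ≤ K)
      (_ : ∀ x ∈ frontier Ω \ S, limsup v (𝓝[Ω] x) ≤ liminf u (𝓝[Ω] x)),
      ∀ x ∈ Ω, v x ≤ u x) := by
  have bds : ∀ (Ω : Set (E n)) (u v : E n → EReal), (∃ M : ℝ, ∀ x ∈ Ω, (M : EReal) ≤ u x) →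
      (∃ M : ℝ, ∀ x ∈ Ω, v x ≤ (M : EReal)) → ∃ M : ℝ, (∀ x ∈ Ω, ((-M : ℝ) : EReal) ≤ u x) ∧
        ∀ x ∈ Ω, v x ≤ (M : EReal) := by
    rintro Ω u v ⟨M1, h1⟩ ⟨M2, h2⟩
    refine ⟨max (-M1) M2, fun x hx => (EReal.coe_le_coe_iff.2 ?_).trans (h1 x hx),
      fun x hx => (h2 x hx).trans (EReal.coe_le_coe_iff.2 (le_max_right _ _))⟩
    have := le_max_left (-M1) M2
    linarith
  refine ⟨?_, ?_, ?_, ?_⟩
  · intro R M ε hR hε
    exact quant_ext hn hp hw hA hR hε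
  · intro Ω S u v hΩ hb hcap hu hv hub hvb hbd
    obtain ⟨M, h1, h2⟩ := bds Ω u v hub hvb
    exact comp_ext hn hp hw hA hΩ hb hcap hu hv h1 h2 hbd
  · intro Ω S u v hΩ hb hcap hu hv hub hvb hbd
    obtain ⟨M, h1, h2⟩ := bds Ω u v hub hvb
    exact comp_ext hn hp hw hA hΩ hb
      (le_antisymm ((relCap_le_cap Ω S).trans hcap.le) zero_le) hu hv h1 h2
      (fun x hx δ hδ => bd_of_limsup h1 h2 (hbd x hx) hδ)
  · intro Ω hΩ hb S hcap u v hu hv hub hvb hbd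
    obtain ⟨K1, hK1⟩ := hub
    obtain ⟨K2, hK2⟩ := hvb
    have huK : ∀ x ∈ Ω, |u x| ≤ max K1 K2 := fun x hx => (hK1 x hx).trans (le_max_left _ _)
    have hvK : ∀ x ∈ Ω, |v x| ≤ max K1 K2 := fun x hx => (hK2 x hx).trans (le_max_right _ _)
    exact comp_rel hn hp hw hA hΩ hb
      (le_antisymm ((relCap_le_cap Ω S).trans hcap.le) zero_le) hu hv huK hvK
      (fun x hx δ hδ => bdd_case hδ hx.1.1 huK hvK (hbd x hx))

end Pool.Agent.Results.MP_fb6cbc_an.CapacityComparison
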